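import Mathlib

open Set Filter Topology
open scoped ContDiff

namespace Pool.Agent.TH621.Pert

variable {V : Type} [NormedAddCommGroup V] [NormedSpace ℝ V]

/-- A differentiable map with derivative bounded by `1/4` is `1/4`-Lipschitz. -/
lemma norm_sub_le {f : V → V} (hf : Differentiable ℝ f) (hb : ∀ x, ‖fderiv ℝ f x‖ ≤ 1 / 4)
    (x y : V) : ‖f x - f y‖ ≤ 1 / 4 * ‖x - y‖ :=
  Convex.norm_image_sub_le_of_norm_fderiv_le (s := Set.univ) (fun z _ => hf z) (fun z _ => hb z)
    convex_univ (mem_univ y) (mem_univ x)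

lemma pert_injective {f : V → V} (hf : Differentiable ℝ f) (hb : ∀ x, ‖fderiv ℝ f x‖ ≤ 1 / 4)
    {c : ℝ} (hc : |c| ≤ 1) : Function.Injective (fun z => z + c • f z) := by
  intro x y hxy
  have h1 : x - y = c • (f y - f x) := by
    have : x + c • f x = y + c • f y := hxy
    rw [smul_sub]
    rw [eq_sub_iff_add_eq, sub_add_eq_add_sub, this]
    abel
  have h2 : ‖x - y‖ ≤ 1 / 4 * ‖x - y‖ := by
    calc ‖x - y‖ = |c| * ‖f y - f x‖ := by rw [h1, norm_smul, Real.norm_eq_abs]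
      _ ≤ 1 * (1 / 4 * ‖y - x‖) := by
          apply mul_le_mul hc (norm_sub_le hf hb y x) (norm_nonneg _) zero_le_one
      _ = 1 / 4 * ‖x - y‖ := by rw [norm_sub_rev]; ring
  have h3 : ‖x - y‖ = 0 := by
    have := norm_nonneg (x - y)
    linarith
  exact sub_eq_zero.1 (norm_eq_zero.1 h3)

lemma pert_surjective [CompleteSpace V] {f : V → V} (hf : Differentiable ℝ f)
    (hb : ∀ x, ‖fderiv ℝ f x‖ ≤ 1 / 4) {c : ℝ} (hc : |c| ≤ 1) :
    Function.Surjective (fun z => z + c • f z) := by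
  intro y
  have hL : ContractingWith (1 / 4 : NNReal) (fun z => y - c • f z) := by
    refine ⟨by rw [← NNReal.coe_lt_coe]; norm_num, LipschitzWith.of_dist_le_mul fun a b => ?_⟩
    rw [dist_eq_norm, dist_eq_norm]
    have : y - c • f a - (y - c • f b) = c • (f b - f a) := by rw [smul_sub]; abel
    rw [this, norm_smul, Real.norm_eq_abs]
    calc |c| * ‖f b - f a‖ ≤ 1 * (1 / 4 * ‖b - a‖) := by
          apply mul_le_mul hc (norm_sub_le hf hb b a) (norm_nonneg _) zero_le_one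
      _ = ((1 / 4 : NNReal) : ℝ) * ‖a - b‖ := by rw [norm_sub_rev]; norm_num
  have : Nonempty V := ⟨0⟩
  refine ⟨hL.fixedPoint, ?_⟩
  have h := hL.fixedPoint_isFixedPt
  have h' : y - c • f hL.fixedPoint = hL.fixedPoint := h
  show hL.fixedPoint + c • f hL.fixedPoint = y
  conv_lhs => lhs; rw [← h']
  abel

/-- The diffeomorphism `z ↦ z + c f(z)`. -/
noncomputable def pert [CompleteSpace V] (f : V → V) (hf : Differentiable ℝ f)
    (hb : ∀ x, ‖fderiv ℝ f x‖ ≤ 1 / 4) (c : ℝ) (hc : |c| ≤ 1) : Equiv.Perm V :=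
  Equiv.ofBijective (fun z => z + c • f z) ⟨pert_injective hf hb hc, pert_surjective hf hb hc⟩

lemma pert_apply [CompleteSpace V] (f : V → V) (hf : Differentiable ℝ f)
    (hb : ∀ x, ‖fderiv ℝ f x‖ ≤ 1 / 4) (c : ℝ) (hc : |c| ≤ 1) (z : V) :
    pert f hf hb c hc z = z + c • f z := rfl

variable [FiniteDimensional ℝ V]

/-- Joint smoothness of the inverses. -/
lemma contDiff_pert_symm [CompleteSpace V] (f : V → V) (hf : Differentiable ℝ f)
    (hb : ∀ x, ‖fderiv ℝ f x‖ ≤ 1 / 4) (hs : ContDiff ℝ ∞ f) (c : ℝ → ℝ) (hcs : ContDiff ℝ ∞ c)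
    (hc : ∀ t, |c t| ≤ 1) :
    ContDiff ℝ ∞ (fun p : ℝ × V => (pert f hf hb (c p.1) (hc p.1)).symm p.2) := by
  -- the total map
  let Φ : ℝ × V → ℝ × V := fun p => (p.1, p.2 + c p.1 • f p.2)
  have hΦs : ContDiff ℝ ∞ Φ := by
    refine contDiff_fst.prodMk (contDiff_snd.add ?_)
    exact (hcs.comp contDiff_fst).smul (hs.comp contDiff_snd)
  let e : (ℝ × V) ≃ (ℝ × V) :=
    { toFun := Φ
      invFun := fun p => (p.1, (pert f hf hb (c p.1) (hc p.1)).symm p.2)
      left_inv := fun p => by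
        refine Prod.ext rfl ?_
        show (pert f hf hb (c p.1) (hc p.1)).symm (p.2 + c p.1 • f p.2) = p.2
        rw [← pert_apply f hf hb (c p.1) (hc p.1), Equiv.symm_apply_apply]
      right_inv := fun p => by
        refine Prod.ext rfl ?_
        show (pert f hf hb (c p.1) (hc p.1)).symm p.2 + c p.1 •
          f ((pert f hf hb (c p.1) (hc p.1)).symm p.2) = p.2
        rw [← pert_apply f hf hb (c p.1) (hc p.1), Equiv.apply_symm_apply] }
  -- the derivative is injective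
  have hinj : ∀ p : ℝ × V, Function.Injective (fderiv ℝ Φ p) := by
    intro p
    have hdf : HasFDerivAt f (fderiv ℝ f p.2) p.2 := (hf p.2).hasFDerivAt
    have hdc : HasFDerivAt c (fderiv ℝ c p.1) p.1 :=
      ((hcs.differentiable (by simp)) p.1).hasFDerivAt
    have h1 : HasFDerivAt (fun q : ℝ × V => c q.1)
        ((fderiv ℝ c p.1).comp (ContinuousLinearMap.fst ℝ ℝ V)) p :=
      hdc.comp p hasFDerivAt_fst
    have h2 : HasFDerivAt (fun q : ℝ × V => f q.2)
        ((fderiv ℝ f p.2).comp (ContinuousLinearMap.snd ℝ ℝ V)) p :=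
      hdf.comp p hasFDerivAt_snd
    have h3 := h1.smul h2
    have h4 : HasFDerivAt Φ ((ContinuousLinearMap.fst ℝ ℝ V).prod
        (ContinuousLinearMap.snd ℝ ℝ V + _)) p :=
      (hasFDerivAt_fst).prodMk ((hasFDerivAt_snd).add h3)
    rw [h4.fderiv]
    rw [injective_iff_map_eq_zero]
    rintro ⟨τ, ζ⟩ h0
    simp only [ContinuousLinearMap.prod_apply, ContinuousLinearMap.coe_fst',
      add_apply, ContinuousLinearMap.coe_snd',
      smul_apply, ContinuousLinearMap.comp_apply,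
      ContinuousLinearMap.smulRight_apply, Prod.mk_eq_zero] at h0
    obtain ⟨h5, h6⟩ := h0
    subst h5
    simp only [map_zero, zero_smul, add_zero] at h6
    have h7 : ‖ζ‖ ≤ 1 / 4 * ‖ζ‖ := by
      have h8 : ζ = -(c p.1 • fderiv ℝ f p.2 ζ) := eq_neg_of_add_eq_zero_left h6
      calc ‖ζ‖ = |c p.1| * ‖fderiv ℝ f p.2 ζ‖ := by
            conv_lhs => rw [h8]
            rw [norm_neg, norm_smul, Real.norm_eq_abs]
        _ ≤ 1 * (1 / 4 * ‖ζ‖) := by
            apply mul_le_mul (hc _) _ (norm_nonneg _) zero_le_one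
            exact (ContinuousLinearMap.le_opNorm _ _).trans
              (mul_le_mul_of_nonneg_right (hb _) (norm_nonneg _))
        _ = 1 / 4 * ‖ζ‖ := one_mul _
    have h9 : ‖ζ‖ = 0 := by
      have := norm_nonneg ζ
      linarith
    rw [Prod.mk_eq_zero]
    exact ⟨rfl, norm_eq_zero.1 h9⟩
  let D : ℝ × V → (ℝ × V) ≃L[ℝ] (ℝ × V) := fun p =>
    (LinearEquiv.ofInjectiveEndo (fderiv ℝ Φ p : (ℝ × V) →ₗ[ℝ] (ℝ × V)) (hinj p)).toContinuousLinearEquiv
  have hD : ∀ p, (D p : (ℝ × V) →L[ℝ] (ℝ × V)) = fderiv ℝ Φ p := by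
    intro p
    ext v
    · rfl
    · rfl
    · rfl
    · rfl
  have hstrict : ∀ p, HasStrictFDerivAt Φ (D p : (ℝ × V) →L[ℝ] (ℝ × V)) p := by
    intro p
    rw [hD]
    exact hΦs.contDiffAt.hasStrictFDerivAt (by simp)
  have hopen : IsOpenMap e := isOpenMap_of_hasStrictFDerivAt_equiv hstrict
  have hcont : Continuous e := hΦs.continuous
  let h : (ℝ × V) ≃ₜ (ℝ × V) := e.toHomeomorphOfContinuousOpen hcont hopen
  have hsymm : ContDiff ℝ ∞ (h.symm : ℝ × V → ℝ × V) :=
    h.contDiff_symm (f₀' := D) (fun p => (hstrict p).hasFDerivAt) hΦs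
  exact contDiff_snd.comp hsymm

/-- Joint smoothness of the derivatives in the second variable. -/
lemma contDiff_iteratedFDeriv_param {W : Type} [NormedAddCommGroup W] [NormedSpace ℝ W]
    {F : Type} [NormedAddCommGroup F] [NormedSpace ℝ F]
    (H : ℝ → W → F) (hH : ContDiff ℝ ∞ (fun p : ℝ × W => H p.1 p.2)) (k : ℕ) :
    ContDiff ℝ ∞ (fun p : ℝ × W => iteratedFDeriv ℝ k (H p.1) p.2) := by
  induction k with
  | zero =>
    have : (fun p : ℝ × W => iteratedFDeriv ℝ 0 (H p.1) p.2) =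
        fun p : ℝ × W => (continuousMultilinearCurryFin0 ℝ W F).symm (H p.1 p.2) := by
      ext1 p
      rw [iteratedFDeriv_zero_eq_comp]
      rfl
    rw [this]
    exact (continuousMultilinearCurryFin0 ℝ W F).symm.contDiff.comp hH
  | succ k ih =>
    have : (fun p : ℝ × W => iteratedFDeriv ℝ (k + 1) (H p.1) p.2) =
        fun p : ℝ × W => (continuousMultilinearCurryLeftEquiv ℝ (fun _ : Fin (k + 1) => W) F).symm
          (fderiv ℝ (fun y => iteratedFDeriv ℝ k (H p.1) y) p.2) := by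
      ext1 p
      rw [iteratedFDeriv_succ_eq_comp_left]
      rfl
    rw [this]
    have h1 : ContDiff ℝ ∞ (fun p : ℝ × W =>
        fderiv ℝ (fun y => iteratedFDeriv ℝ k (H p.1) y) p.2) := by
      refine ContDiff.fderiv (m := ∞) (n := ∞)
        (f := fun (p : ℝ × W) (y : W) => iteratedFDeriv ℝ k (H p.1) y) ?_ contDiff_snd le_rfl
      exact ih.comp ((contDiff_fst.comp contDiff_fst).prodMk contDiff_snd)
    exact ContDiff.continuousLinearMap_comp (𝕜 := ℝ) (F := W →L[ℝ] W [×k]→L[ℝ] F)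
      (G := W [×(k + 1)]→L[ℝ] F) (n := ∞)
      ((continuousMultilinearCurryLeftEquiv ℝ (fun _ : Fin (k + 1) => W)
        F).symm.toContinuousLinearEquiv.toContinuousLinearMap) h1

end Pool.Agent.TH621.Pert
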