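import Pool.Agent.H607R3.PS.Grade
import Pool.Agent.H594.PSRegP
import Pool.Agent.H841.PSRes
import Pool.Agent.H633R3.PS.Loc
import Pool.Agent.H291R3.PSB.Base
import Pool.Agent.H51R3.PS.Common

set_option autoImplicit false
set_option linter.all false

/-! Tasks GradeP and DimP of the project H607-PS (the second ring `RR[[t]]/(s t)`). -/

namespace Pool.Agent.TH621.PS

open IsLocalRing Pool.Agent.H607R3.PS Pool.Agent.H607R3.PS.RegP PowerSeries

section Gen

variable {T : Type} [CommRing T] {α β γ : T}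

/-- the projection to the base ring -/
noncomputable def rhoP : RP T α β γ →+* T :=
  Ideal.Quotient.lift _ ((H51R3.PS.rho (T := T) (α := α) (β := β) (γ := γ)).comp
    (PowerSeries.constantCoeff (R := RR T α β γ))) (by
      intro a ha
      rw [Ideal.mem_span_singleton] at ha
      obtain ⟨c, rfl⟩ := ha
      simp)

theorem rhoP_qm (f : PowerSeries (RR T α β γ)) :
    rhoP (qm f) = (PowerSeries.constantCoeff f).a := rfl

theorem rhoP_toRP (u : RR T α β γ) : rhoP (toRP u) = u.a := by
  change (PowerSeries.constantCoeff (PowerSeries.C u)).a = u.a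
  rw [PowerSeries.constantCoeff_C]

/-- the kernel of the projection is killed by `s` -/
theorem s_mul_ker (a : RP T α β γ) (ha : rhoP a = 0) : toRP (RR.s : RR T α β γ) * a = 0 := by
  obtain ⟨f, rfl⟩ := Ideal.Quotient.mk_surjective a
  have h0 : (PowerSeries.constantCoeff f).a = 0 := ha
  change qm (C (RR.s : RR T α β γ)) * qm f = 0
  rw [← map_mul]
  refine (qm_zero_iff _).2 ⟨PowerSeries.mk fun n => coeff (n + 1) f, ?_⟩
  ext1 n
  rcases n with _ | n
  · rw [coeff_sX_zero, coeff_C_mul, s_mul]
    have h1 : (coeff 0 f).a = 0 := by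
      rw [coeff_zero_eq_constantCoeff_apply]; exact h0
    rw [h1]
    ext <;> simp
  · rw [coeff_sX_succ, coeff_C_mul, coeff_mk]

theorem rhoP_surj_sub (a : RP T α β γ) : rhoP (a - toRP (RR.emb (rhoP a))) = 0 := by
  rw [map_sub, rhoP_toRP, RR.emb_a, sub_self]

end Gen

section Base

variable {T : Type} [CommRing T] [IsLocalRing T] [IsNoetherianRing T] [IsDomain T] {α β γ : T}

/-- the prime ideal of `RP` over `(α, β)` -/
noncomputable def PP (T : Type) [CommRing T] (α β γ : T) : Ideal (RP T α β γ) :=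
  (Ideal.span {α, β} : Ideal T).comap rhoP

theorem mem_PP (a : RP T α β γ) : a ∈ PP T α β γ ↔ rhoP a ∈ (Ideal.span {α, β} : Ideal T) :=
  Iff.rfl

theorem cP_le_PP : cP T α β γ ≤ PP T α β γ := by
  rw [cP, cI, Ideal.span_le]
  rintro _ ⟨i, rfl⟩
  have h1 : gens (toRP (RR.x : RR T α β γ)) (toRP RR.y) (toRP RR.z) (toRP RR.w) (toRP RR.s) i =
      toRP (gens (RR.x : RR T α β γ) RR.y RR.z RR.w RR.s i) := by
    fin_cases i <;> simp [gens]
  rw [SetLike.mem_coe, mem_PP, h1, rhoP_toRP]
  exact H51R3.PS.rho_gens i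

theorem dim_S (hB : Base T α β γ) [hP : (PP T α β γ).IsPrime] (S : Type) [CommRing S]
    [Algebra (RP T α β γ) S] [IsLocalization.AtPrime S (PP T α β γ)] [IsLocalRing S]
    [IsNoetherianRing S] : ringKrullDim S ≤ 2 := by
  have hsunit : IsUnit (algebraMap (RP T α β γ) S (toRP RR.s)) := by
    refine IsLocalization.map_units (M := (PP T α β γ).primeCompl) S ⟨toRP RR.s, ?_⟩
    intro hs
    have h5 := (mem_PP _).1 hs
    rw [rhoP_toRP] at h5
    exact hB.notMem h5
  have hmax : maximalIdeal S ≤ Ideal.span {algebraMap (RP T α β γ) S (toRP (RR.emb α)),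
      algebraMap (RP T α β γ) S (toRP (RR.emb β))} := by
    rw [← IsLocalization.AtPrime.map_eq_maximalIdeal (PP T α β γ) S, Ideal.map_le_iff_le_comap]
    intro a ha
    rw [Ideal.mem_comap]
    have h6 := (mem_PP _).1 ha
    rw [Ideal.mem_span_pair] at h6
    obtain ⟨u, v, huv⟩ := h6
    have h7 := s_mul_ker _ (rhoP_surj_sub a)
    have h8 : algebraMap (RP T α β γ) S (a - toRP (RR.emb (rhoP a))) = 0 := by
      have h9 := congrArg (algebraMap (RP T α β γ) S) h7
      rw [map_mul, map_zero] at h9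
      exact (hsunit.mul_right_eq_zero).1 h9
    rw [map_sub, sub_eq_zero] at h8
    rw [h8, ← huv, map_add, map_add, map_add, map_mul, map_mul, map_mul, map_mul, map_mul, map_mul]
    refine Ideal.add_mem _ (Ideal.mul_mem_left _ _ (Ideal.subset_span (by simp)))
      (Ideal.mul_mem_left _ _ (Ideal.subset_span (by simp)))
  rw [← IsLocalRing.maximalIdeal_height_eq_ringKrullDim]
  have heq : maximalIdeal S = Ideal.span {algebraMap (RP T α β γ) S (toRP (RR.emb α)),
    algebraMap (RP T α β γ) S (toRP (RR.emb β))} := by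
    refine le_antisymm hmax ?_
    rw [Ideal.span_le]
    intro t ht
    rw [Set.mem_insert_iff, Set.mem_singleton_iff] at ht
    have hgen : ∀ δ : T, δ ∈ (Ideal.span {α, β} : Ideal T) →
        algebraMap (RP T α β γ) S (toRP (RR.emb δ)) ∈ maximalIdeal S := by
      intro δ hδ
      rw [IsLocalization.AtPrime.to_map_mem_maximal_iff S (PP T α β γ), mem_PP, rhoP_toRP]
      exact hδ
    rcases ht with rfl | rfl
    · exact hgen α (Ideal.subset_span (by simp))
    · exact hgen β (Ideal.subset_span (by simp))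
  have hfin := Ideal.height_le_spanFinrank (maximalIdeal S) (maximalIdeal.isMaximal S).ne_top
  have hfr : (maximalIdeal S).spanFinrank ≤ 2 := by
    rw [heq]
    refine (Submodule.spanFinrank_span_le_ncard_of_finite (Set.toFinite _)).trans ?_
    exact (Set.ncard_insert_le _ _).trans (by simp)
  have : (maximalIdeal S).height ≤ (2 : ℕ∞) := hfin.trans (by exact_mod_cast hfr)
  exact (WithBot.coe_le_coe.2 this :
    ((maximalIdeal S).height : WithBot ℕ∞) ≤ ((2 : ℕ∞) : WithBot ℕ∞))

theorem reg_len (S : Type) [CommRing S] [IsLocalRing S] [IsNoetherianRing S] (rs : List S)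
    (hR : RingTheory.Sequence.IsRegular S rs) (hlen : rs.length = 3) :
    (3 : WithBot ℕ∞) ≤ ringKrullDim S := by
  have hdim := ringKrullDim_add_length_eq_ringKrullDim_of_isRegular _ hR
  rw [hlen] at hdim
  have hnt : Nontrivial (S ⧸ Ideal.ofList rs) := by
    rw [Ideal.Quotient.nontrivial_iff]
    intro htop
    apply hR.2
    rw [htop]
    simp
  have h0 : (0 : WithBot ℕ∞) ≤ ringKrullDim (S ⧸ Ideal.ofList rs) :=
    ringKrullDim_nonneg_of_nontrivial
  rw [← hdim]
  calc (3 : WithBot ℕ∞) = 0 + 3 := (zero_add _).symm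
    _ ≤ _ := add_le_add h0 le_rfl

theorem gradeP_aux (hB : Base T α β γ) [hP : (PP T α β γ).IsPrime] (S : Type) [CommRing S]
    [Algebra (RP T α β γ) S] [IsLocalization.AtPrime S (PP T α β γ)] [IsLocalRing S]
    [IsNoetherianRing S] (rs : List (RP T α β γ)) (hlen : rs.length = 3)
    (hmem : ∀ r ∈ rs, r ∈ cP T α β γ)
    (hreg : RingTheory.Sequence.IsWeaklyRegular (RP T α β γ) rs) : False := by
  have hR : RingTheory.Sequence.IsRegular S (rs.map (algebraMap (RP T α β γ) S)) :=
    hreg.isRegular_of_isLocalization_of_mem S (PP T α β γ) (fun r hr => cP_le_PP (hmem r hr))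
  have h10 := (reg_len S _ hR (by rw [List.length_map, hlen])).trans (dim_S hB S)
  exact absurd (by exact_mod_cast h10 : (3 : ℕ) ≤ 2) (by decide)

theorem taskGradeP : TaskGradeP := by
  intro T _ _ _ _ α β γ hB
  rintro ⟨rs, hlen, hmem, hreg⟩
  have hp2 := hB.prime2
  haveI hP : (PP T α β γ).IsPrime := Ideal.comap_isPrime _ _
  haveI : IsNoetherianRing (Localization.AtPrime (PP T α β γ)) :=
    IsLocalization.isNoetherianRing (PP T α β γ).primeCompl _ inferInstance
  exact gradeP_aux hB (Localization.AtPrime (PP T α β γ)) rs hlen hmem hreg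

/-! ### Dimensions -/

/-- the structure map `T[[t]] → RP` -/
noncomputable def jj (T : Type) [CommRing T] (α β γ : T) : PowerSeries T →+* RP T α β γ :=
  (qm (T := T) (α := α) (β := β) (γ := γ)).comp (PowerSeries.map RR.emb)

theorem jj_inj {T : Type} [CommRing T] (α β γ : T) : Function.Injective (jj T α β γ) := by
  rw [injective_iff_map_eq_zero]
  intro f hf
  obtain ⟨r, hr⟩ := (qm_zero_iff _).1 (show qm (PowerSeries.map RR.emb f) = 0 from hf)
  ext1 n
  have h1 := congrArg (fun g => coeff n g) hr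
  simp only [coeff_map] at h1
  rcases n with _ | n
  · rw [coeff_sX_zero] at h1
    have h2 := congrArg RR.a h1
    simpa using h2
  · rw [coeff_sX_succ, s_mul] at h1
    have h2 := congrArg RR.a h1
    have h3 := congrArg RR.c h1
    simp only [RR.emb_a, RR.emb_c] at h2 h3
    have h4 : (coeff n r).a = 0 := neg_eq_zero.1 h3.symm
    rw [h4, mul_zero] at h2
    rw [h2, map_zero]

theorem jj_int {T : Type} [CommRing T] (α β γ : T) : (jj T α β γ).IsIntegral := by
  have h1 : (PowerSeries.map (RR.emb : T →+* RR T α β γ)).Finite := by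
    letI : Algebra (PowerSeries T) (PowerSeries (RR T α β γ)) :=
      (PowerSeries.map (RR.emb : T →+* RR T α β γ)).toAlgebra
    change Module.Finite (PowerSeries T) (PowerSeries (RR T α β γ))
    refine Module.Finite.of_surjective
      (Fintype.linearCombination (PowerSeries T)
        (![1, C RR.x, C RR.w] : Fin 3 → PowerSeries (RR T α β γ))) ?_
    intro f
    refine ⟨![PowerSeries.mk fun n => (coeff n f).a, PowerSeries.mk fun n => (coeff n f).b,
      PowerSeries.mk fun n => (coeff n f).c], ?_⟩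
    rw [Fintype.linearCombination_apply, Fin.sum_univ_three]
    simp only [Algebra.smul_def]
    change PowerSeries.map RR.emb _ * 1 + PowerSeries.map RR.emb _ * C RR.x +
      PowerSeries.map RR.emb _ * C RR.w = f
    ext1 n
    rw [map_add, map_add, mul_one, coeff_mul_C, coeff_mul_C, coeff_map, coeff_map, coeff_map]
    change RR.emb (coeff n (PowerSeries.mk fun n => (coeff n f).a)) +
      RR.emb (coeff n (PowerSeries.mk fun n => (coeff n f).b)) * RR.x +
      RR.emb (coeff n (PowerSeries.mk fun n => (coeff n f).c)) * RR.w = _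
    rw [coeff_mk, coeff_mk, coeff_mk]
    exact (RR.decomp (coeff n f)).symm
  have h2 : (qm (T := T) (α := α) (β := β) (γ := γ)).IsIntegral :=
    RingHom.isIntegral_of_surjective (qm (T := T) (α := α) (β := β) (γ := γ))
      Ideal.Quotient.mk_surjective
  exact RingHom.IsIntegral.trans (PowerSeries.map (RR.emb : T →+* RR T α β γ))
    (qm (T := T) (α := α) (β := β) (γ := γ)) h1.to_isIntegral h2

theorem dim_RP (hB : Base T α β γ) : (4 : WithBot ℕ∞) ≤ ringKrullDim (RP T α β γ) := by
  have h1 : ringKrullDim (PowerSeries T) = 4 := by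
    rw [Pool.Agent.H291R3.PSB.dim_succ, hB.dim]; norm_num
  rw [← h1]
  letI : Algebra (PowerSeries T) (RP T α β γ) := (jj T α β γ).toAlgebra
  haveI : Algebra.IsIntegral (PowerSeries T) (RP T α β γ) := ⟨jj_int α β γ⟩
  exact Pool.Agent.Helper834.EC.ringKrullDim_ge_of_integral (jj_inj α β γ)

/-- the element `s + t` -/
noncomputable def ss (T : Type) [CommRing T] (α β γ : T) : RP T α β γ :=
  toRP RR.s + qm X

theorem s_mul_t {T : Type} [CommRing T] (α β γ : T) :
    (toRP RR.s : RP T α β γ) * qm X = 0 := by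
  change qm (C (RR.s : RR T α β γ)) * qm X = 0
  rw [← map_mul]
  exact (qm_zero_iff _).2 ⟨1, by rw [mul_one]⟩

/-- a prime ideal containing `cP` and `s + t` contains the maximal ideal -/
theorem prime_ge (hB : Base T α β γ) [IsLocalRing (RP T α β γ)] (p : Ideal (RP T α β γ))
    [hp : p.IsPrime] (h1 : cP T α β γ ≤ p) (h2 : ss T α β γ ∈ p) :
    maximalIdeal (RP T α β γ) ≤ p := by
  have hst : (toRP RR.s : RP T α β γ) ∈ p ∧ (qm X : RP T α β γ) ∈ p := by
    have h3 : (toRP RR.s : RP T α β γ) * qm X ∈ p := by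
      rw [s_mul_t]; exact zero_mem _
    rcases hp.mem_or_mem h3 with h4 | h4
    · refine ⟨h4, ?_⟩
      have h5 := p.sub_mem h2 h4
      rwa [ss, add_sub_cancel_left] at h5
    · refine ⟨?_, h4⟩
      have h5 := p.sub_mem h2 h4
      rwa [ss, add_sub_cancel_right] at h5
  obtain ⟨hs, ht⟩ := hst
  have hg : ∀ i, gens (toRP (RR.x : RR T α β γ)) (toRP RR.y) (toRP RR.z) (toRP RR.w)
      (toRP RR.s) i ∈ p := fun i => h1 (Ideal.subset_span ⟨i, rfl⟩)
  have hy : (toRP RR.y : RP T α β γ) ∈ p := hp.mem_of_pow_mem 3 (hg 0)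
  have hz : (toRP RR.z : RP T α β γ) ∈ p := hp.mem_of_pow_mem 2 (hg 1)
  have hx : (toRP RR.x : RP T α β γ) ∈ p := by
    refine hp.mem_of_pow_mem 2 ?_
    have h3 : (toRP RR.x : RP T α β γ) ^ 2 + toRP RR.s ^ 2 * toRP RR.z ∈ p := hg 3
    have h4 := p.sub_mem h3 (p.mul_mem_left (toRP RR.s ^ 2) hz)
    rwa [add_sub_cancel_right] at h4
  have hw : (toRP RR.w : RP T α β γ) ∈ p := by
    refine hp.mem_of_pow_mem 4 ?_
    have h3 : (toRP RR.w : RP T α β γ) ^ 4 + toRP RR.s * toRP RR.y * toRP RR.z ∈ p := hg 4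
    have h4 := p.sub_mem h3 (p.mul_mem_left (toRP RR.s * toRP RR.y) hz)
    rwa [add_sub_cancel_right] at h4
  have hα : (toRP (RR.emb α) : RP T α β γ) ∈ p := by
    rw [← RR.x_sub_y, map_sub]; exact p.sub_mem hx hy
  have hβ : (toRP (RR.emb β) : RP T α β γ) ∈ p := by
    rw [← RR.z_eq]; exact hz
  have hγ : (toRP (RR.emb γ) : RP T α β γ) ∈ p := by
    rw [← RR.s_add_w, map_add]; exact p.add_mem hs hw
  have hm : ∀ t ∈ maximalIdeal T, (toRP (RR.emb t) : RP T α β γ) ∈ p := by
    intro t ht
    have h3 : maximalIdeal T ≤ p.comap ((toRP : RR T α β γ →+* RP T α β γ).comp RR.emb) := by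
      rw [hB.max, Ideal.span_le]
      intro u hu
      simp only [Set.mem_insert_iff, Set.mem_singleton_iff] at hu
      rw [SetLike.mem_coe, Ideal.mem_comap, RingHom.comp_apply]
      rcases hu with rfl | rfl | rfl <;> assumption
    exact h3 ht
  intro a ha
  -- `a` is congruent to an element of the base modulo `p`
  obtain ⟨f, rfl⟩ := Ideal.Quotient.mk_surjective a
  have hcong : qm f - toRP (RR.emb (PowerSeries.constantCoeff f).a) ∈ p := by
    have e1 : f = C (PowerSeries.constantCoeff f) + X * PowerSeries.mk fun n => coeff (n + 1) f := by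
      rw [← sub_const_eq_X_mul_shift]
      ring
    have e2 : qm f = toRP (PowerSeries.constantCoeff f) +
        qm X * qm (PowerSeries.mk fun n => coeff (n + 1) f) := by
      conv_lhs => rw [e1]
      rw [map_add, map_mul]
      rfl
    have e3 := RR.decomp (PowerSeries.constantCoeff f)
    have e4 : (toRP (PowerSeries.constantCoeff f) : RP T α β γ) =
        toRP (RR.emb (PowerSeries.constantCoeff f).a) +
        toRP (RR.emb (PowerSeries.constantCoeff f).b) * toRP RR.x +
        toRP (RR.emb (PowerSeries.constantCoeff f).c) * toRP RR.w := by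
      conv_lhs => rw [e3]
      rw [map_add, map_add, map_mul, map_mul]
    rw [e2, e4]
    have e5 : toRP (RR.emb (PowerSeries.constantCoeff f).a) +
        toRP (RR.emb (PowerSeries.constantCoeff f).b) * toRP RR.x +
        toRP (RR.emb (PowerSeries.constantCoeff f).c) * toRP RR.w +
        qm X * qm (PowerSeries.mk fun n => coeff (n + 1) f) -
        toRP (RR.emb (PowerSeries.constantCoeff f).a) =
        toRP (RR.emb (PowerSeries.constantCoeff f).b) * toRP RR.x +
        toRP (RR.emb (PowerSeries.constantCoeff f).c) * toRP RR.w +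
        qm X * qm (PowerSeries.mk fun n => coeff (n + 1) f) := by ring
    rw [e5]
    exact p.add_mem (p.add_mem (p.mul_mem_left _ hx) (p.mul_mem_left _ hw)) (p.mul_mem_right _ ht)
  have hple : p ≤ maximalIdeal (RP T α β γ) := le_maximalIdeal hp.ne_top
  have ha0 : (PowerSeries.constantCoeff f).a ∈ maximalIdeal T := by
    by_contra hcon
    have hu : IsUnit (PowerSeries.constantCoeff f).a := by
      by_contra h5
      exact hcon ((mem_maximalIdeal _).2 h5)
    have hu2 : IsUnit (toRP (RR.emb (PowerSeries.constantCoeff f).a) : RP T α β γ) :=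
      (hu.map (RR.emb : T →+* RR T α β γ)).map toRP
    have h6 := (maximalIdeal (RP T α β γ)).sub_mem ha (hple hcong)
    have h7 : Ideal.Quotient.mk _ f - (qm f - toRP (RR.emb (PowerSeries.constantCoeff f).a)) =
        (toRP (RR.emb (PowerSeries.constantCoeff f).a) : RP T α β γ) := by
      change qm f - (qm f - _) = _
      ring
    rw [h7] at h6
    exact ((mem_maximalIdeal _).1 h6) hu2
  have h8 := p.add_mem hcong (hm _ ha0)
  rwa [sub_add_cancel] at h8

theorem dim_le_one_of (A : Type) [CommRing A] [IsLocalRing A] [IsNoetherianRing A] (u : A)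
    (hu : u ∈ maximalIdeal A)
    (h : ∀ p : Ideal A, p.IsPrime → u ∈ p → maximalIdeal A ≤ p) : ringKrullDim A ≤ 1 := by
  have hz : ringKrullDim (A ⧸ Ideal.span {u}) ≤ 0 := by
    have h0 : Ring.KrullDimLE 0 (A ⧸ Ideal.span {u}) := by
      refine Ring.KrullDimLE.mk₀ fun I hI => ?_
      haveI hp : (I.comap (Ideal.Quotient.mk (Ideal.span {u}))).IsPrime := Ideal.comap_isPrime _ _
      have h2 : u ∈ I.comap (Ideal.Quotient.mk (Ideal.span {u})) := by
        rw [Ideal.mem_comap, Ideal.Quotient.eq_zero_iff_mem.2 (Ideal.mem_span_singleton_self u)]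
        exact zero_mem _
      have h4 := h _ hp h2
      have h5 : I.comap (Ideal.Quotient.mk (Ideal.span {u})) = maximalIdeal A :=
        le_antisymm (le_maximalIdeal hp.ne_top) h4
      have h6 : (I.comap (Ideal.Quotient.mk (Ideal.span {u}))).IsMaximal := by
        rw [h5]; infer_instance
      have h7 := Ideal.map_comap_of_surjective (Ideal.Quotient.mk (Ideal.span {u}))
        Ideal.Quotient.mk_surjective I
      rcases Ideal.map_eq_top_or_isMaximal_of_surjective (Ideal.Quotient.mk (Ideal.span {u}))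
        Ideal.Quotient.mk_surjective h6 with h8 | h8
      · rw [h7] at h8
        exact absurd h8 hI.ne_top
      · rw [h7] at h8
        exact h8
    exact_mod_cast Ring.krullDimLE_iff.1 h0
  have h1 := ringKrullDim_le_ringKrullDim_quotient_add_card ({u} : Finset A) (by
    rw [IsLocalRing.ringJacobson_eq_maximalIdeal]
    simpa using hu)
  rw [Finset.coe_singleton, Finset.card_singleton] at h1
  calc ringKrullDim A ≤ _ := h1
    _ ≤ 0 + 1 := add_le_add hz (by norm_num)
    _ = 1 := zero_add _

theorem dim_quot (hB : Base T α β γ) [IsLocalRing (RP T α β γ)]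
    (hne : cP T α β γ ≠ ⊤) : ringKrullDim (RP T α β γ ⧸ cP T α β γ) ≤ 1 := by
  haveI : Nontrivial (RP T α β γ ⧸ cP T α β γ) := Ideal.Quotient.nontrivial_iff.2 hne
  haveI hloc : IsLocalRing (RP T α β γ ⧸ cP T α β γ) :=
    IsLocalRing.of_surjective' (Ideal.Quotient.mk _) Ideal.Quotient.mk_surjective
  refine dim_le_one_of _ (Ideal.Quotient.mk (cP T α β γ) (ss T α β γ)) ?_ ?_
  · rw [mem_maximalIdeal, mem_nonunits_iff]
    intro hun
    have h1 : IsUnit (ss T α β γ) := by
      have hl : IsLocalHom (Ideal.Quotient.mk (cP T α β γ)) :=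
        IsLocalHom.of_surjective _ Ideal.Quotient.mk_surjective
      exact hl.map_nonunit _ hun
    have h2 : IsUnit (rhoP (ss T α β γ)) := h1.map rhoP
    have h3 : rhoP (ss T α β γ) = γ := by
      rw [ss, map_add, rhoP_toRP, rhoP_qm, constantCoeff_X]
      simp [RR.s]
    rw [h3] at h2
    have h4 : γ ∈ maximalIdeal T := (H51R3.PS.mem_max hB).2.2
    exact ((mem_maximalIdeal _).1 h4) h2
  · intro p hp hu a ha
    obtain ⟨b, rfl⟩ := Ideal.Quotient.mk_surjective a
    haveI hq : (p.comap (Ideal.Quotient.mk (cP T α β γ))).IsPrime := Ideal.comap_isPrime _ _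
    have h1 : cP T α β γ ≤ p.comap (Ideal.Quotient.mk (cP T α β γ)) := by
      intro c hc
      rw [Ideal.mem_comap, Ideal.Quotient.eq_zero_iff_mem.2 hc]
      exact zero_mem _
    have h4 := prime_ge hB (p.comap (Ideal.Quotient.mk (cP T α β γ))) h1 hu
    have hb : b ∈ maximalIdeal (RP T α β γ) := by
      rw [mem_maximalIdeal, mem_nonunits_iff] at ha ⊢
      exact fun hun => ha (hun.map _)
    exact h4 hb

theorem taskDimP (hB : Base T α β γ) [IsLocalRing (RP T α β γ)] (hne : cP T α β γ ≠ ⊤) :
    (2 : WithBot ℕ∞) + ringKrullDim (RP T α β γ ⧸ cP T α β γ) < ringKrullDim (RP T α β γ) := by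
  calc (2 : WithBot ℕ∞) + ringKrullDim (RP T α β γ ⧸ cP T α β γ) ≤ 2 + 1 :=
        add_le_add le_rfl (dim_quot hB hne)
    _ < 4 := by norm_num
    _ ≤ _ := dim_RP hB

end Base

end Pool.Agent.TH621.PS
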